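import Pool.Agent.H81.RE.Proc

/-!
# Growth with adaptively chosen thresholds

`a T` is the number of the thresholds `< T` used so far on both sides; `a T ≤ T` always holds. A
threshold `τ` may be used if `a T < T` for all `T > τ`. Stage 0: every threshold may be used;
stage 1: every threshold `≥ 1` may be used. The potential `Z`: if it is multiplied by the number of
the missing vertices (on both sides, over all start vertices), some choice of a threshold and of a
side does not increase the quotient.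
-/

set_option autoImplicit false

namespace Pool.Agent.H62.CP

open Finset Pool.Agent.H81.RD Pool.Agent.H81.RE

variable {V : Type}

/-- use the threshold `τ` -/
def use (a : ℕ → ℕ) (τ : ℕ) : ℕ → ℕ := fun T => a T + if τ < T then 1 else 0

/-- every threshold `≥ j` may be used -/
def ok (j : ℕ) (a : ℕ → ℕ) : Prop := ∀ T : ℕ, j < T → a T < T

open Classical in
/-- the potential, for at most `n` more steps -/
noncomputable def Z (K : ℕ) (c : ℝ) : ℕ → (ℕ → ℕ) → ℝ
  | 0, _ => 1
  | n + 1, a =>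
    if ok 0 a then (∑ τ ∈ Ico 0 K, Z K c n (use a τ)) / (K - c / 2)
    else if ok 1 a then (∑ τ ∈ Ico 1 K, Z K c n (use a τ)) / (K - (c + 1) / 2)
    else 1

theorem one_le_Z {K : ℕ} {c : ℝ} (hc : 1 ≤ c) (hK : c < K) :
    ∀ (n : ℕ) (a : ℕ → ℕ), 1 ≤ Z K c n a := by
  intro n
  induction n with
  | zero => intro a; exact le_rfl
  | succ n ih =>
    intro a
    have h1 : (1 : ℝ) ≤ K := hc.trans hK.le
    have h1' : 1 ≤ K := by exact_mod_cast h1
    have hs : ∀ j : ℕ, j ≤ K → ((K : ℝ) - j) ≤ ∑ τ ∈ Ico j K, Z K c n (use a τ) := by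
      intro j hj
      calc ((K : ℝ) - j) = ∑ τ ∈ Ico j K, (1 : ℝ) := by
            rw [sum_const, Nat.card_Ico, nsmul_eq_mul, mul_one, Nat.cast_sub hj]
        _ ≤ _ := sum_le_sum fun τ _ => ih _
    unfold Z
    split_ifs with h2 h3
    · rw [le_div_iff₀ (by linarith)]
      have := hs 0 (Nat.zero_le _)
      push_cast at this
      linarith
    · rw [le_div_iff₀ (by linarith)]
      have := hs 1 h1'
      push_cast at this
      linarith
    · exact le_rfl

/-- the number of the missing vertices -/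
def mis (B : Finset V) [DecidableEq V] (R : V → Finset V) : ℝ :=
  ∑ x ∈ B, ((B \ R x).card : ℝ)

theorem mis_nonneg (B : Finset V) [DecidableEq V] (R : V → Finset V) : 0 ≤ mis B R :=
  sum_nonneg fun _ _ => Nat.cast_nonneg _

/-- a family of sets of vertices which are reached with the counts `b` -/
structure Fam (s : V → V → ℕ) (B : Finset V) (b : ℕ → ℕ) (R : V → Finset V) : Prop where
  ne : ∀ x ∈ B, (R x).Nonempty
  sub : ∀ x ∈ B, R x ⊆ B
  reach : ∀ x ∈ B, ∀ y ∈ R x, ∃ (N : ℕ → ℕ) (M : ℕ), W s x N M y ∧ ∀ T : ℕ, N T ≤ b T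

variable [DecidableEq V]

theorem Fam.stp {s : V → V → ℕ} {B : Finset V} {b : ℕ → ℕ} {R : V → Finset V}
    (h : Fam s B b R) {f : Finset V → V} (hf : ∀ R : Finset V, R.Nonempty → R ⊆ B → f R ∈ R)
    (τ : ℕ) : Fam s B (use b τ) (fun x => stp s B f (R x) τ) := by
  refine ⟨fun x hx => stp_nonempty (h.ne x hx) τ, fun x hx => stp_subset (h.sub x hx) τ, ?_⟩
  intro x hx y hy
  unfold Pool.Agent.H81.RE.stp at hy
  rw [mem_union] at hy
  rcases hy with hy | hy
  · obtain ⟨N, M, h1, h2⟩ := h.reach x hx y hy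
    exact ⟨N, M, h1, fun T => (h2 T).trans (Nat.le_add_right _ _)⟩
  · rw [mem_filter] at hy
    obtain ⟨N, M, h1, h2⟩ := h.reach x hx _ (hf _ (h.ne x hx) (h.sub x hx))
    refine ⟨_, _, W.step h1 (lt_of_le_of_lt (Nat.zero_le _) hy.2), fun T => ?_⟩
    have h3 := h2 T
    show N T + _ ≤ b T + _
    have h4 : (if s (f (R x)) y ≤ T then 1 else 0) ≤ if τ < T then 1 else 0 := by
      by_cases h5 : s (f (R x)) y ≤ T
      · rw [if_pos h5, if_pos (lt_of_lt_of_le hy.2 h5)]
      · rw [if_neg h5]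
        exact Nat.zero_le _
    omega

theorem sum_mis_stp {s : V → V → ℕ} {B : Finset V} {f : Finset V → V} {K : ℕ} {c : ℝ}
    (hK : ∀ R : Finset V, R.Nonempty → R ⊆ B → ∀ y ∈ B, s (f R) y ≤ K)
    (hc : ∀ R : Finset V, R.Nonempty → R ⊆ B →
      c * ((B \ R).card : ℝ) ≤ ∑ y ∈ B \ R, (s (f R) y : ℝ)) {b : ℕ → ℕ} {R : V → Finset V}
    (h : Fam s B b R) (j : ℕ) :
    ∑ τ ∈ Ico j K, mis B (fun x => stp s B f (R x) τ) ≤ (K - c) * mis B R := by
  unfold mis
  rw [sum_comm, mul_sum]
  refine sum_le_sum fun x hx => ?_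
  have h1 := sum_stp (hK _ (h.ne x hx) (h.sub x hx)) (hc _ (h.ne x hx) (h.sub x hx))
  refine le_trans ?_ h1
  rw [Fin.sum_univ_eq_sum_range (fun τ => ((B \ stp s B f (R x) τ).card : ℝ)) K,
    range_eq_Ico]
  exact sum_le_sum_of_subset_of_nonneg (Ico_subset_Ico_left (Nat.zero_le _))
    fun _ _ _ => Nat.cast_nonneg _

/-- one step: some threshold and some side do not increase the quotient -/
theorem step_exists {s : V → V → ℕ} {B : Finset V} {f : Finset V → V} {K : ℕ} {c : ℝ}
    (hK : ∀ R : Finset V, R.Nonempty → R ⊆ B → ∀ y ∈ B, s (f R) y ≤ K)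
    (hc : ∀ R : Finset V, R.Nonempty → R ⊆ B →
      c * ((B \ R).card : ℝ) ≤ ∑ y ∈ B \ R, (s (f R) y : ℝ)) {b b' : ℕ → ℕ}
    {R R' : V → Finset V} (h : Fam s B b R) (h' : Fam s B b' R') {j : ℕ} (hj : j < K)
    (z : ℕ → ℝ) (hz : ∀ τ, 0 ≤ z τ) (hD : 0 < (K : ℝ) - (c + j) / 2) :
    ∃ τ ∈ Ico j K,
      (mis B (fun x => stp s B f (R x) τ) + mis B R') *
          ((∑ τ ∈ Ico j K, z τ) / (K - (c + j) / 2)) ≤ (mis B R + mis B R') * z τ ∨
      (mis B R + mis B (fun x => stp s B f (R' x) τ)) *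
          ((∑ τ ∈ Ico j K, z τ) / (K - (c + j) / 2)) ≤ (mis B R + mis B R') * z τ := by
  obtain ⟨S, hS⟩ : ∃ S, S = ∑ τ ∈ Ico j K, z τ := ⟨_, rfl⟩
  obtain ⟨D, hDd⟩ : ∃ D, D = (K : ℝ) - (c + j) / 2 := ⟨_, rfl⟩
  rw [← hS, ← hDd]
  rw [← hDd] at hD
  by_contra hcon
  push Not at hcon
  have hq : 0 ≤ S / D := div_nonneg (by rw [hS]; exact sum_nonneg fun τ _ => hz τ) hD.le
  have h1 := sum_mis_stp hK hc h j
  have h2 := sum_mis_stp hK hc h' j
  have hne : (Ico j K).Nonempty := nonempty_Ico.mpr hj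
  have h3 : ∑ τ ∈ Ico j K, ((mis B R + mis B R') * z τ + (mis B R + mis B R') * z τ) <
      ∑ τ ∈ Ico j K, ((mis B (fun x => stp s B f (R x) τ) + mis B R') * (S / D) +
        (mis B R + mis B (fun x => stp s B f (R' x) τ)) * (S / D)) :=
    sum_lt_sum_of_nonempty hne fun τ hτ => add_lt_add (hcon τ hτ).1 (hcon τ hτ).2
  have h4 : ∑ τ ∈ Ico j K, ((mis B R + mis B R') * z τ + (mis B R + mis B R') * z τ) =
      2 * (mis B R + mis B R') * S := by
    rw [hS, mul_sum]
    exact sum_congr rfl fun τ _ => by ring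
  have hcard : ((Ico j K).card : ℝ) = (K : ℝ) - j := by
    rw [Nat.card_Ico, Nat.cast_sub hj.le]
  have h5 : ∑ τ ∈ Ico j K, ((mis B (fun x => stp s B f (R x) τ) + mis B R') * (S / D) +
        (mis B R + mis B (fun x => stp s B f (R' x) τ)) * (S / D)) =
      (∑ τ ∈ Ico j K, mis B (fun x => stp s B f (R x) τ) +
        ∑ τ ∈ Ico j K, mis B (fun x => stp s B f (R' x) τ) +
        ((K : ℝ) - j) * (mis B R + mis B R')) * (S / D) := by
    have h6 : ((K : ℝ) - j) * (mis B R + mis B R') =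
        ∑ τ ∈ Ico j K, (mis B R + mis B R') := by
      rw [sum_const, nsmul_eq_mul, hcard]
    rw [h6, ← sum_add_distrib, ← sum_add_distrib, sum_mul]
    exact sum_congr rfl fun τ _ => by ring
  rw [h4, h5] at h3
  have h6 : (∑ τ ∈ Ico j K, mis B (fun x => stp s B f (R x) τ) +
        ∑ τ ∈ Ico j K, mis B (fun x => stp s B f (R' x) τ) +
        ((K : ℝ) - j) * (mis B R + mis B R')) ≤ 2 * D * (mis B R + mis B R') := by
    rw [hDd]
    nlinarith
  have h7 := mul_le_mul_of_nonneg_right h6 hq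
  have h8 : 2 * D * (mis B R + mis B R') * (S / D) = 2 * (mis B R + mis B R') * S := by
    field_simp
  linarith

theorem use_add_left (b b' : ℕ → ℕ) (τ : ℕ) :
    (fun T => use b τ T + b' T) = use (fun T => b T + b' T) τ := by
  funext T
  simp only [use]
  omega

theorem use_add_right (b b' : ℕ → ℕ) (τ : ℕ) :
    (fun T => b T + use b' τ T) = use (fun T => b T + b' T) τ := by
  funext T
  simp only [use]
  omega

theorem use_le {a : ℕ → ℕ} {j : ℕ} (ha : ∀ T : ℕ, a T ≤ T) (hok : ok j a) {τ : ℕ}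
    (hτ : j ≤ τ) : ∀ T : ℕ, use a τ T ≤ T := by
  intro T
  unfold use
  split_ifs with h
  · have := hok T (by omega)
    omega
  · exact ha T

/-- **The run.** -/
theorem run {s : V → V → ℕ} {B : Finset V} {f : Finset V → V} {K : ℕ} {c : ℝ} (hc1 : 1 ≤ c)
    (hcK : c < K) (hf : ∀ R : Finset V, R.Nonempty → R ⊆ B → f R ∈ R)
    (hK : ∀ R : Finset V, R.Nonempty → R ⊆ B → ∀ y ∈ B, s (f R) y ≤ K)
    (hc : ∀ R : Finset V, R.Nonempty → R ⊆ B →
      c * ((B \ R).card : ℝ) ≤ ∑ y ∈ B \ R, (s (f R) y : ℝ)) :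
    ∀ (n : ℕ) (b b' : ℕ → ℕ) (R R' : V → Finset V), (∀ T : ℕ, b T + b' T ≤ T) →
      Fam s B b R → Fam s B b' R' →
      ∃ (b₁ b₁' : ℕ → ℕ) (R₁ R₁' : V → Finset V), (∀ T : ℕ, b₁ T + b₁' T ≤ T) ∧
        Fam s B b₁ R₁ ∧ Fam s B b₁' R₁' ∧
        (mis B R₁ + mis B R₁') * Z K c n (fun T => b T + b' T) ≤ mis B R + mis B R' := by
  have hK1 : (1 : ℝ) < K := lt_of_le_of_lt hc1 hcK
  have hK1' : 1 < K := by exact_mod_cast hK1
  intro n
  induction n with
  | zero =>
    intro b b' R R' hb h h'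
    exact ⟨b, b', R, R', hb, h, h', by simp [Z]⟩
  | succ n ih =>
    intro b b' R R' hb h h'
    -- the step with the threshold `≥ j`
    have key : ∀ j : ℕ, j ≤ 1 → ok j (fun T => b T + b' T) →
        ∃ (b₁ b₁' : ℕ → ℕ) (R₁ R₁' : V → Finset V), (∀ T : ℕ, b₁ T + b₁' T ≤ T) ∧
          Fam s B b₁ R₁ ∧ Fam s B b₁' R₁' ∧
          (mis B R₁ + mis B R₁') *
            ((∑ τ ∈ Ico j K, Z K c n (use (fun T => b T + b' T) τ)) / (K - (c + j) / 2)) ≤
              mis B R + mis B R' := by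
      intro j hj hok
      have hjr : (j : ℝ) ≤ 1 := by exact_mod_cast hj
      have hD : 0 < (K : ℝ) - (c + j) / 2 := by linarith
      have hpos : ∀ τ, 0 < Z K c n (use (fun T => b T + b' T) τ) := fun τ =>
        lt_of_lt_of_le one_pos (one_le_Z hc1 hcK n _)
      obtain ⟨τ, hτ, hor⟩ := step_exists hK hc h h' (by omega : j < K)
        (fun τ => Z K c n (use (fun T => b T + b' T) τ)) (fun τ => (hpos τ).le) hD
      obtain ⟨q, hq⟩ : ∃ q, q = (∑ τ ∈ Ico j K, Z K c n (use (fun T => b T + b' T) τ)) /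
        ((K : ℝ) - (c + j) / 2) := ⟨_, rfl⟩
      have hq0 : 0 ≤ q := by
        rw [hq]
        exact div_nonneg (sum_nonneg fun τ _ => (hpos τ).le) hD.le
      rw [← hq]
      simp only [← hq] at hor
      have hτj : j ≤ τ := (mem_Ico.mp hτ).1
      have hle := use_le (a := fun T => b T + b' T) hb hok hτj
      rcases hor with h1 | h1
      · obtain ⟨b₁, b₁', R₁, R₁', h2, h3, h4, h5⟩ := ih (use b τ) b'
          (fun x => stp s B f (R x) τ) R' (by
            intro T
            have := hle T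
            have e : use b τ T + b' T = use (fun T => b T + b' T) τ T :=
              congrFun (use_add_left b b' τ) T
            rw [e]
            exact this) (h.stp hf τ) h'
        refine ⟨b₁, b₁', R₁, R₁', h2, h3, h4, ?_⟩
        rw [use_add_left] at h5
        have h6 := mul_le_mul_of_nonneg_right h5 hq0
        have h7 : (mis B R₁ + mis B R₁') * q * Z K c n (use (fun T => b T + b' T) τ) ≤
            (mis B R + mis B R') * Z K c n (use (fun T => b T + b' T) τ) := by linarith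
        exact le_of_mul_le_mul_right h7 (hpos τ)
      · obtain ⟨b₁, b₁', R₁, R₁', h2, h3, h4, h5⟩ := ih b (use b' τ) R
          (fun x => stp s B f (R' x) τ) (by
            intro T
            have := hle T
            have e : b T + use b' τ T = use (fun T => b T + b' T) τ T :=
              congrFun (use_add_right b b' τ) T
            rw [e]
            exact this) h (h'.stp hf τ)
        refine ⟨b₁, b₁', R₁, R₁', h2, h3, h4, ?_⟩
        rw [use_add_right] at h5
        have h6 := mul_le_mul_of_nonneg_right h5 hq0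
        have h7 : (mis B R₁ + mis B R₁') * q * Z K c n (use (fun T => b T + b' T) τ) ≤
            (mis B R + mis B R') * Z K c n (use (fun T => b T + b' T) τ) := by linarith
        exact le_of_mul_le_mul_right h7 (hpos τ)
    unfold Z
    split_ifs with h0 h1
    · have h2 := key 0 (by omega) h0
      simpa using h2
    · have h2 := key 1 le_rfl h1
      simpa using h2
    · exact ⟨b, b', R, R', hb, h, h', by simp⟩

end Pool.Agent.H62.CP
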